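import Pool.Agent.KS6_81.GR.Vanish

/-!
# Green's conjecture fails for 4-connected reduced curves

The octahedral curve `C`: the union of six projective lines, whose dual graph is the graph of the
octahedron. It is 4-connected, has arithmetic genus 7 and it is not hyperelliptic. For a component
`A` and the union `B` of the others the sheaf `O_A ⊕ O_B` shows that the Clifford index of `C` is at
most 2, but `K_{3,1}(C, ω_C) = 0`.
-/

set_option autoImplicit false

namespace Pool.Agent.Results.MP_99eb35_ag.OctahedralCurve

open Pool.Agent.KS6_81.GR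

theorem result (k : Type) [Field k] [IsAlgClosed k] [CharZero k] :
    ∃ (C : Curve k) (W : Submodule k C.Fam), C.IsCanonical W ∧ C.IsConnected ∧ C.IsPlanar ∧
      C.IsFourConnected W ∧ ¬ C.IsHyperelliptic ∧ C.pa Finset.univ = 7 ∧
      (∃ U, C.IsAdmissible W U ∧ C.cliffOf U ≤ 2) ∧ C.cliff W ≤ 2 ∧
      C.KoszulVanishes W 2 ∧
      ¬ (C.KoszulVanishes W 2 ↔ (3 : ℤ) ≥ C.pa Finset.univ - C.cliff W - 1) := by
  refine ⟨(octa k).curve, (octa k).can, (octa k).isCanonical_can, octa_connected k,
    octa_planar k, octa_fourConnected k, octa_not_hyperelliptic k, octa_pa k,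
    ⟨_, octa_admissible k, octa_cliffOf k⟩, octa_cliff k, octa_vanish, fun h => ?_⟩
  have h1 := h.mp octa_vanish
  have h2 := octa_pa k
  have h3 := octa_cliff k
  rw [h2] at h1
  linarith

end Pool.Agent.Results.MP_99eb35_ag.OctahedralCurve
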